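import Mathlib
import Pool.Agent.TH407.MZ.Defs
import Pool.Agent.TH407.AR.Strong
set_option autoImplicit false

/-!
# MZ-13 (job 3032, helper407, MP_6cbfb8_an): from the restricted to the strong estimate, the zone
-/

namespace Pool.Agent.TH740.MZx

open MeasureTheory Set Complex
open scoped ENNReal NNReal Real
open Pool.Agent.TH407.AR (Adm)
open Pool.Agent.TH407.ARx (lv meas_lv lv_lower ak Mk adm_ak Mk_le lev)
open Pool.Agent.TH407.MZ
open Pool.Agent.TH407.MV (dt)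

theorem meas_etz : Measurable etz := by
  have h : Continuous etz := by
    unfold etz
    exact (Real.smoothTransition.continuous.comp (by fun_prop)).mul
      (Real.smoothTransition.continuous.comp (by fun_prop))
  exact h.measurable

theorem etz_nonneg (s : ℝ) : 0 ≤ etz s :=
  mul_nonneg (Real.smoothTransition.nonneg _) (Real.smoothTransition.nonneg _)

theorem etz_le (s : ℝ) : etz s ≤ 1 :=
  mul_le_one₀ (Real.smoothTransition.le_one _) (Real.smoothTransition.nonneg _)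
    (Real.smoothTransition.le_one _)

/-- the amplitude -/
noncomputable def fz (a : ℝ → ℝ → ℂ) (p : ℝ × ℝ) : ℂ := (etz (p.1 - 1 / 2) : ℂ) * a p.1 p.2

theorem meas_fz {a : ℝ → ℝ → ℂ} (ha : Measurable (Function.uncurry a)) : Measurable (fz a) := by
  unfold fz
  exact (Complex.measurable_ofReal.comp (meas_etz.comp (by fun_prop))).mul ha

/-- the phase -/
noncomputable def pz (X : ℝ × ℝ) (t : ℝ) (p : ℝ × ℝ) : ℝ :=
  √(1 - (p.1 - 1 / 2) ^ 2) * dt X p.2 + (p.1 - 1 / 2) * t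

theorem EZ_eq (a : ℝ → ℝ → ℂ) (X : ℝ × ℝ) (t : ℝ) :
    EZ a X t = ∫ p : ℝ × ℝ, cexp (-(I * ((pz X t p : ℝ) : ℂ))) * fz a p ∂mZ := rfl

instance : SFinite mZ := by
  unfold mZ
  infer_instance

theorem meas_pz : Measurable (fun z : ((ℝ × ℝ) × ℝ) × (ℝ × ℝ) => pz z.1.1 z.1.2 z.2) := by
  unfold pz dt
  fun_prop

theorem meas_EZ {a : ℝ → ℝ → ℂ} (ha : Measurable (Function.uncurry a)) :
    Measurable (fun ξ : (ℝ × ℝ) × ℝ => EZ a ξ.1 ξ.2) := by
  have h : StronglyMeasurable (Function.uncurry (fun (ξ : (ℝ × ℝ) × ℝ) (p : ℝ × ℝ) =>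
      cexp (-(I * ((pz ξ.1 ξ.2 p : ℝ) : ℂ))) * fz a p)) := by
    refine Measurable.stronglyMeasurable ?_
    refine Measurable.mul ?_ ((meas_fz ha).comp measurable_snd)
    have := meas_pz
    fun_prop
  exact (h.integral_prod_right (ν := mZ)).measurable

/-- the `L¹` norm -/
theorem lint_fz {a : ℝ → ℝ → ℂ} {M : ℝ → ℝ≥0} (ha : Adm a M) :
    ∫⁻ p, ‖fz a p‖ₑ ∂mZ ≤ ∫⁻ θ in Ioo (-π) π, (M θ : ℝ≥0∞) := by
  have h1 : ∀ p : ℝ × ℝ, ‖fz a p‖ₑ ≤
      (Icc (0 : ℝ) 1).indicator (fun _ => (1 : ℝ≥0∞)) p.1 * (M p.2 : ℝ≥0∞) := by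
    intro p
    unfold fz
    by_cases h : p.1 ∈ Icc (0 : ℝ) 1
    · rw [indicator_of_mem h, one_mul, enorm_mul]
      have h3 : ‖((etz (p.1 - 1 / 2) : ℝ) : ℂ)‖ₑ ≤ 1 := by
        rw [← ofReal_norm, Complex.norm_real, ← ENNReal.ofReal_one]
        apply ENNReal.ofReal_le_ofReal
        rw [Real.norm_of_nonneg (etz_nonneg _)]
        exact etz_le _
      calc _ ≤ 1 * (M p.2 : ℝ≥0∞) := by
            gcongr
            exact ha.bd _ _
        _ = M p.2 := one_mul _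
    · rw [ha.supp _ _ h]
      simp
  calc ∫⁻ p, ‖fz a p‖ₑ ∂mZ
      ≤ ∫⁻ p, (Icc (0 : ℝ) 1).indicator (fun _ => (1 : ℝ≥0∞)) p.1 * (M p.2 : ℝ≥0∞) ∂mZ :=
        lintegral_mono h1
    _ = (∫⁻ r : ℝ, (Icc (0 : ℝ) 1).indicator (fun _ => (1 : ℝ≥0∞)) r) *
          ∫⁻ θ in Ioo (-π) π, (M θ : ℝ≥0∞) := by
        unfold mZ
        rw [lintegral_prod_mul (f := (Icc (0 : ℝ) 1).indicator (fun _ => (1 : ℝ≥0∞)))
            (g := fun θ => (M θ : ℝ≥0∞))]
        · exact (measurable_const.indicator measurableSet_Icc).aemeasurable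
        · exact ha.mM.coe_nnreal_ennreal.aemeasurable
    _ = ∫⁻ θ in Ioo (-π) π, (M θ : ℝ≥0∞) := by
        have : ∫⁻ r : ℝ, (Icc (0 : ℝ) 1).indicator (fun _ => (1 : ℝ≥0∞)) r = 1 := by
          rw [lintegral_indicator measurableSet_Icc, setLIntegral_const, Real.volume_Icc]
          norm_num
        rw [this, one_mul]

/-- the bound on one level -/
theorem level {a : ℝ → ℝ → ℂ} {M : ℝ → ℝ≥0} (ha : Adm a M) (q p : ℝ) (hq : 2 ≤ q)
    (hp : 2 ≤ p) (C : ℝ≥0) (hC : ∀ (a : ℝ → ℝ → ℂ) (M : ℝ → ℝ≥0) (B : ℝ≥0), Adm a M → (∀ θ, M θ ≤ B) →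
      ∫⁻ ξ : (ℝ × ℝ) × ℝ, ‖EZ a ξ.1 ξ.2‖ₑ ^ p ≤
        C * (B : ℝ≥0∞) ^ (p - 2) * ∫⁻ θ in Ioo (-π) π, (M θ : ℝ≥0∞) ^ 2) (k : ℤ) :
    ENNReal.ofReal ((2 : ℝ) ^ (k * (q - p))) *
      ∫⁻ ξ : (ℝ × ℝ) × ℝ, ‖EZ (ak a M k) ξ.1 ξ.2‖ₑ ^ p ≤
      ((C * (2 : ℝ≥0) ^ (p - 2) : ℝ≥0) : ℝ≥0∞) *
        ∫⁻ θ in Ioo (-π) π, if lv M θ = k then (M θ : ℝ≥0∞) ^ q else 0 := by
  have h1 := hC _ _ ((2 : ℝ≥0) ^ ((k : ℝ) + 1)) (adm_ak ha k) (Mk_le M k)
  calc ENNReal.ofReal ((2 : ℝ) ^ (k * (q - p))) *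
      ∫⁻ ξ : (ℝ × ℝ) × ℝ, ‖EZ (ak a M k) ξ.1 ξ.2‖ₑ ^ p
      ≤ ENNReal.ofReal ((2 : ℝ) ^ (k * (q - p))) * (C * (((2 : ℝ≥0) ^ ((k : ℝ) + 1) : ℝ≥0) : ℝ≥0∞) ^ (p - 2) *
          ∫⁻ θ in Ioo (-π) π, (Mk M k θ : ℝ≥0∞) ^ 2) := by gcongr
    _ = C * ∫⁻ θ in Ioo (-π) π, ENNReal.ofReal ((2 : ℝ) ^ (k * (q - p))) *
          (((2 : ℝ≥0) ^ ((k : ℝ) + 1) : ℝ≥0) : ℝ≥0∞) ^ (p - 2) * (Mk M k θ : ℝ≥0∞) ^ 2 := by
        rw [lintegral_const_mul']
        · ring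
        · exact ENNReal.mul_ne_top ENNReal.ofReal_ne_top
            (ENNReal.rpow_ne_top_of_nonneg (by linarith) ENNReal.coe_ne_top)
    _ ≤ C * ∫⁻ θ in Ioo (-π) π, (((2 : ℝ≥0) ^ (p - 2) : ℝ≥0) : ℝ≥0∞) *
          (if lv M θ = k then (M θ : ℝ≥0∞) ^ q else 0) := by
        refine mul_le_mul' le_rfl (lintegral_mono fun θ => ?_)
        by_cases h : lv M θ = k
        · rw [if_pos h]
          have h2 : Mk M k θ = M θ := by unfold Mk; rw [if_pos h]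
          rw [h2]
          apply lev q p hq
          rcases eq_or_ne (M θ) 0 with h0 | h0
          · exact Or.inl h0
          · right
            rw [← h]
            exact lv_lower h0
        · have h2 : Mk M k θ = 0 := by unfold Mk; rw [if_neg h]
          rw [h2, if_neg h]
          simp
    _ = _ := by
        rw [lintegral_const_mul' _ _ ENNReal.coe_ne_top, ENNReal.coe_mul, mul_assoc]

theorem strongZ_of' (h12 : RestrZ) (hS : Pool.Agent.TH407.AR.SumLemma) : StrongZ := by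
  intro q hq
  obtain ⟨C0, hC0⟩ := h12 ((q + 3) / 2) (by linarith)
  obtain ⟨C1, hC1⟩ := h12 (q + 1) (by linarith)
  obtain ⟨Cs, hCs⟩ := hS ((q + 3) / 2) q (q + 1) (by linarith) (by linarith) (by linarith)
  set D0 : ℝ≥0 := C0 * (2 : ℝ≥0) ^ ((q + 3) / 2 - 2) with hD0
  set D1 : ℝ≥0 := C1 * (2 : ℝ≥0) ^ (q + 1 - 2) with hD1
  refine ⟨Cs * (D0 + D1) + 1, ?_⟩
  intro a M ha
  by_cases hfin : ∫⁻ θ in Ioo (-π) π, (M θ : ℝ≥0∞) ^ q = ⊤
  · rw [hfin, ENNReal.mul_top]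
    · exact le_top
    · rw [ENNReal.coe_ne_zero]; positivity
  -- integrability
  have hM1 : ∫⁻ θ in Ioo (-π) π, (M θ : ℝ≥0∞) ≠ ⊤ := by
    have h1 : ∫⁻ θ in Ioo (-π) π, (M θ : ℝ≥0∞) ≤ ∫⁻ θ in Ioo (-π) π, (1 + (M θ : ℝ≥0∞) ^ q) := by
      refine lintegral_mono fun θ => ?_
      rcases le_total (M θ : ℝ≥0∞) 1 with h | h
      · exact h.trans le_self_add
      · calc (M θ : ℝ≥0∞) = (M θ : ℝ≥0∞) ^ (1 : ℝ) := (ENNReal.rpow_one _).symm
          _ ≤ (M θ : ℝ≥0∞) ^ q := ENNReal.rpow_le_rpow_of_exponent_le h (by linarith)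
          _ ≤ _ := le_add_self
    refine ne_top_of_le_ne_top ?_ h1
    rw [lintegral_add_left measurable_const, setLIntegral_const, one_mul]
    refine ENNReal.add_ne_top.mpr ⟨?_, hfin⟩
    rw [Real.volume_Ioo]
    exact ENNReal.ofReal_ne_top
  have hint : ∫⁻ x, ‖fz a x‖ₑ ∂mZ ≠ ⊤ := ne_top_of_le_ne_top hM1 (lint_fz ha)
  have hmeas : ∀ k, Measurable (fz (ak a M k)) := fun k => meas_fz (adm_ak ha k).ma
  -- decomposition
  have hfak : ∀ k (x : ℝ × ℝ), fz (ak a M k) x = if lv M x.2 = k then fz a x else 0 := by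
    intro k x
    unfold fz ak
    split_ifs
    · rfl
    · rw [mul_zero]
  have hsum : ∀ x : ℝ × ℝ, ∑' k, ‖fz (ak a M k) x‖ₑ = ‖fz a x‖ₑ := by
    intro x
    rw [tsum_eq_single (lv M x.2)]
    · rw [hfak, if_pos rfl]
    · intro k hk
      rw [hfak, if_neg (Ne.symm hk), enorm_zero]
  have hEX : ∀ X t, ‖EZ a X t‖ₑ ≤ ∑' k, ‖EZ (ak a M k) X t‖ₑ := by
    intro X t
    have hnorm : ∀ x : ℝ × ℝ, ‖cexp (-(I * ((pz X t x : ℝ) : ℂ)))‖ₑ = 1 := by
      intro x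
      rw [← ofReal_norm, Complex.norm_exp]
      simp
    have hmp : Measurable (fun x : ℝ × ℝ => pz X t x) :=
      meas_pz.comp (measurable_const.prodMk measurable_id :
        Measurable (fun x : ℝ × ℝ => ((X, t), x)))
    have h1 : EZ a X t = ∑' k, EZ (ak a M k) X t := by
      simp only [EZ_eq]
      rw [← integral_tsum]
      · refine integral_congr_ae (ae_of_all _ fun x => ?_)
        simp only
        rw [tsum_eq_single (lv M x.2)]
        · rw [hfak, if_pos rfl]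
        · intro k hk
          rw [hfak, if_neg (Ne.symm hk), mul_zero]
      · intro k
        refine AEStronglyMeasurable.mul ?_ (hmeas k).aestronglyMeasurable
        refine Measurable.aestronglyMeasurable ?_
        fun_prop
      · have h2 : ∀ k, ∫⁻ x : ℝ × ℝ, ‖cexp (-(I * ((pz X t x : ℝ) : ℂ))) *
            fz (ak a M k) x‖ₑ ∂mZ = ∫⁻ x : ℝ × ℝ, ‖fz (ak a M k) x‖ₑ ∂mZ := by
          intro k
          refine lintegral_congr fun x => ?_
          rw [enorm_mul, hnorm, one_mul]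
        simp only [h2]
        rw [← lintegral_tsum (fun k => (hmeas k).enorm.aemeasurable)]
        simp only [hsum]
        exact hint
    rw [h1]
    exact enorm_tsum_le_tsum_enorm
  -- main computation
  have hmE : ∀ k, Measurable (fun ξ : (ℝ × ℝ) × ℝ => ‖EZ (ak a M k) ξ.1 ξ.2‖ₑ) :=
    fun k => (meas_EZ (adm_ak ha k).ma).enorm
  have hlev0 := level ha q ((q + 3) / 2) (by linarith) (by linarith) C0 hC0
  have hlev1 := level ha q (q + 1) (by linarith) (by linarith) C1 hC1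
  have hE : ∀ k : ℤ, MeasurableSet {θ | lv M θ = k} := fun k =>
    meas_lv ha.mM (measurableSet_singleton k)
  have hA : ∑' k : ℤ, ∫⁻ θ in Ioo (-π) π, (if lv M θ = k then (M θ : ℝ≥0∞) ^ q else 0) =
      ∫⁻ θ in Ioo (-π) π, (M θ : ℝ≥0∞) ^ q := by
    rw [← lintegral_tsum]
    · refine lintegral_congr fun θ => ?_
      rw [tsum_eq_single (lv M θ)]
      · rw [if_pos rfl]
      · intro k hk
        rw [if_neg (Ne.symm hk)]
    · intro k
      exact (Measurable.ite (hE k) (ha.mM.coe_nnreal_ennreal.pow_const q)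
        measurable_const).aemeasurable
  calc ∫⁻ ξ : (ℝ × ℝ) × ℝ, ‖EZ a ξ.1 ξ.2‖ₑ ^ q
      ≤ ∫⁻ ξ : (ℝ × ℝ) × ℝ, Cs * (∑' k : ℤ, ENNReal.ofReal ((2 : ℝ) ^ (k * (q - (q + 3) / 2))) *
            ‖EZ (ak a M k) ξ.1 ξ.2‖ₑ ^ ((q + 3) / 2) +
          ∑' k : ℤ, ENNReal.ofReal ((2 : ℝ) ^ (k * (q - (q + 1)))) *
            ‖EZ (ak a M k) ξ.1 ξ.2‖ₑ ^ (q + 1)) := by
        refine lintegral_mono fun ξ => ?_
        refine (ENNReal.rpow_le_rpow (hEX ξ.1 ξ.2) (by linarith)).trans ?_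
        refine (hCs (fun k => ‖EZ (ak a M k) ξ.1 ξ.2‖ₑ)).trans (le_of_eq ?_)
        congr 3
        funext k
        congr 3
        ring
    _ = Cs * ((∑' k : ℤ, ENNReal.ofReal ((2 : ℝ) ^ (k * (q - (q + 3) / 2))) *
            ∫⁻ ξ : (ℝ × ℝ) × ℝ, ‖EZ (ak a M k) ξ.1 ξ.2‖ₑ ^ ((q + 3) / 2)) +
          ∑' k : ℤ, ENNReal.ofReal ((2 : ℝ) ^ (k * (q - (q + 1)))) *
            ∫⁻ ξ : (ℝ × ℝ) × ℝ, ‖EZ (ak a M k) ξ.1 ξ.2‖ₑ ^ (q + 1)) := by
        rw [lintegral_const_mul' _ _ ENNReal.coe_ne_top, lintegral_add_left, lintegral_tsum,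
          lintegral_tsum]
        · congr 2
          · congr 1
            funext k
            rw [lintegral_const_mul' _ _ ENNReal.ofReal_ne_top]
          · congr 1
            funext k
            rw [lintegral_const_mul' _ _ ENNReal.ofReal_ne_top]
        · intro k
          exact (((hmE k).pow_const _).const_mul _).aemeasurable
        · intro k
          exact (((hmE k).pow_const _).const_mul _).aemeasurable
        · exact Measurable.tsum fun k => ((hmE k).pow_const _).const_mul _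
    _ ≤ Cs * ((∑' k : ℤ, (D0 : ℝ≥0∞) *
            ∫⁻ θ in Ioo (-π) π, (if lv M θ = k then (M θ : ℝ≥0∞) ^ q else 0)) +
          ∑' k : ℤ, (D1 : ℝ≥0∞) *
            ∫⁻ θ in Ioo (-π) π, (if lv M θ = k then (M θ : ℝ≥0∞) ^ q else 0)) := by
        exact mul_le_mul' le_rfl (add_le_add (ENNReal.tsum_le_tsum hlev0)
          (ENNReal.tsum_le_tsum hlev1))
    _ = ((Cs * (D0 + D1) : ℝ≥0) : ℝ≥0∞) * ∫⁻ θ in Ioo (-π) π, (M θ : ℝ≥0∞) ^ q := by
        rw [ENNReal.tsum_mul_left, ENNReal.tsum_mul_left, hA]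
        push_cast
        ring
    _ ≤ _ := by
        gcongr
        exact le_self_add

theorem strongZ_of (_ : BallZ) (h12 : RestrZ) (hS : Pool.Agent.TH407.AR.SumLemma) : StrongZ :=
  strongZ_of' h12 hS

end Pool.Agent.TH740.MZx
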